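import Pool.Agent.H26.GN.B2

/-!
MP_78d38b_GN (helper49): invariant forms on finite modules over a semisimple ring with involution
(6.2 and 6.3 of /team-store/H26_78d38b_GN.md).
-/

set_option autoImplicit false
open scoped Classical

namespace H49GN

open H26GN

/-- An invariant bilinear form. -/
structure IF (B : Type) {V : Type} [Ring B] [TR B] [AddCommGroup V] [Module B V]
    (β : V → V → ZMod 2) : Prop where
  addl : ∀ x x' y, β (x + x') y = β x y + β x' y
  addr : ∀ x y y', β x (y + y') = β x y + β x y'
  inv : ∀ (a : B) x y, β (a • x) y = β x (st a • y)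

namespace IF

variable {B V : Type} [Ring B] [TR B] [AddCommGroup V] [Module B V] {β : V → V → ZMod 2}

theorem zerol (h : IF B β) (y : V) : β 0 y = 0 := by
  have h1 := h.addl 0 0 y
  rw [add_zero] at h1
  rwa [left_eq_add] at h1

theorem zeror (h : IF B β) (x : V) : β x 0 = 0 := by
  have h1 := h.addr x 0 0
  rw [add_zero] at h1
  rwa [left_eq_add] at h1

theorem inv' (h : IF B β) (a : B) (x y : V) : β x (a • y) = β (st a • x) y := by
  rw [h.inv, st_st]

theorem suml (h : IF B β) {ι : Type*} (s : Finset ι) (f : ι → V) (y : V) :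
    β (∑ i ∈ s, f i) y = ∑ i ∈ s, β (f i) y := by
  induction s using Finset.induction_on with
  | empty => rw [Finset.sum_empty, Finset.sum_empty, h.zerol]
  | insert a s ha ih => rw [Finset.sum_insert ha, Finset.sum_insert ha, h.addl, ih]

theorem sumr (h : IF B β) {ι : Type*} (s : Finset ι) (x : V) (f : ι → V) :
    β x (∑ i ∈ s, f i) = ∑ i ∈ s, β x (f i) := by
  induction s using Finset.induction_on with
  | empty => rw [Finset.sum_empty, Finset.sum_empty, h.zeror]
  | insert a s ha ih => rw [Finset.sum_insert ha, Finset.sum_insert ha, h.addr, ih]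

/-- The alternating form `β(x,y) + β(y,x)`. -/
theorem om (h : IF B β) : IF B (fun x y => β x y + β y x) where
  addl x x' y := by
    change β (x + x') y + β y (x + x') = _
    rw [h.addl, h.addr]
    ring
  addr x y y' := by
    change β x (y + y') + β (y + y') x = _
    rw [h.addl, h.addr]
    ring
  inv a x y := by
    change β (a • x) y + β y (a • x) = β x (st a • y) + β (st a • y) x
    rw [h.inv, h.inv' a y x]

/-- The restriction to a module which maps to `V`. -/
theorem comap (h : IF B β) {W : Type} [AddCommGroup W] [Module B W] (f g : W →ₗ[B] V) :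
    IF B (fun x y : W => β (f x) (g y)) where
  addl x x' y := by
    change β (f (x + x')) (g y) = _
    rw [map_add, h.addl]
  addr x y y' := by
    change β (f x) (g (y + y')) = _
    rw [map_add, h.addr]
  inv a x y := by
    change β (f (a • x)) (g y) = β (f x) (g (st a • y))
    rw [map_smul, map_smul, h.inv]

/-- The map to the dual. -/
noncomputable def du (h : IF B β) (W : Submodule B V) : V →ₗ[B] Du W where
  toFun x := (⟨⟨fun y : W => β x y, h.zeror x⟩, fun y y' => h.addr x y y'⟩ : W →+ ZMod 2)
  map_add' x x' := by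
    apply DFunLike.ext
    intro y
    exact h.addl x x' y
  map_smul' a x := by
    apply DFunLike.ext
    intro y
    exact h.inv a x y

theorem du_apply (h : IF B β) (W : Submodule B V) (x : V) (y : W) : h.du W x y = β x y := rfl

end IF

section T

variable {B V : Type} [Ring B] [TR B] [AddCommGroup V] [Module B V]

/-- The form of two functionals. -/
theorem IF_t (b b' : V →ₗ[B] B) : IF B (fun x y => tau (b x * st (b' y))) where
  addl x x' y := by
    change tau (b (x + x') * st (b' y)) = _
    rw [map_add, add_mul, tau_add]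
  addr x y y' := by
    change tau (b x * st (b' (y + y'))) = _
    rw [map_add, st_add, mul_add, tau_add]
  inv a x y := by
    change tau (b (a • x) * st (b' y)) = tau (b x * st (b' (st a • y)))
    rw [map_smul, map_smul, smul_eq_mul, smul_eq_mul, st_mul, st_st, mul_assoc, tau_mul_comm, mul_assoc]

theorem t_symm (b b' : V →ₗ[B] B) (x y : V) :
    tau (b x * st (b' y)) = tau (b' y * st (b x)) := by
  rw [← tau_st, st_mul, st_st]

variable [Finite B] [Finite V]

/-- Every invariant form is a sum of forms of two functionals. -/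
theorem form_sum [IsSemisimpleRing B] {β : V → V → ZMod 2} (h : IF B β) :
    ∃ (n : ℕ) (b : Fin n → Fin n → V →ₗ[B] B) (b' : Fin n → V →ₗ[B] B),
      ∀ x y, β x y = ∑ i, ∑ j, tau (b i j x * st (b' j y)) := by
  haveI := Module.projective_of_isSemisimpleRing B V
  obtain ⟨n, f, hf⟩ := Module.Finite.exists_fin' B V
  obtain ⟨s, hs⟩ := Module.projective_lifting_property f LinearMap.id hf
  have hs' : ∀ x, f (s x) = x := fun x => by
    have := LinearMap.congr_fun hs x
    exact this
  have hm : ∀ x, x = ∑ i, s x i • f (Pi.single i 1) := by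
    intro x
    conv_lhs => rw [← hs' x, ← Finset.univ_sum_single (s x), map_sum]
    refine Finset.sum_congr rfl fun i _ => ?_
    rw [← map_smul]
    congr 1
    funext j
    rw [Pi.smul_apply]
    by_cases hij : j = i
    · subst hij
      rw [Pi.single_eq_same, Pi.single_eq_same, smul_eq_mul, mul_one]
    · rw [Pi.single_eq_of_ne hij, Pi.single_eq_of_ne hij, smul_zero]
  have ha : ∀ i j : Fin n, ∃ a : B, ∀ c : B, β (c • f (Pi.single i 1)) (f (Pi.single j 1)) = tau (c * a) := by
    intro i j
    obtain ⟨a, ha⟩ := exists_rep (B := B) (AddMonoidHom.mk' (fun c : B => β (c • f (Pi.single i 1)) (f (Pi.single j 1)))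
      (fun c c' => by rw [add_smul, h.addl]))
    exact ⟨a, fun c => ha c⟩
  choose a ha using ha
  refine ⟨n, fun i j => ((LinearMap.toSpanSingleton B B (a i j)).comp ((LinearMap.proj i).comp s)),
    fun j => (LinearMap.proj j).comp s, fun x y => ?_⟩
  conv_lhs => rw [hm x, hm y, h.suml]
  refine Finset.sum_congr rfl fun i _ => ?_
  rw [h.sumr]
  refine Finset.sum_congr rfl fun j _ => ?_
  rw [h.inv', ← mul_smul, ha]
  change _ = tau ((s x i * a i j) * st (s y j))
  rw [tau_mul_comm (s x i * a i j), mul_assoc]

/-- (ii) If all forms `t_b` vanish then all invariant forms are symmetric. -/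
theorem symm_of_t [IsSemisimpleRing B] (H : ∀ (b : V →ₗ[B] B) (x y : V), tau (b x * st (b y)) = 0)
    {β : V → V → ZMod 2} (h : IF B β) (x y : V) : β x y = β y x := by
  obtain ⟨n, b, b', hb⟩ := form_sum h
  rw [hb, hb]
  refine Finset.sum_congr rfl fun i _ => Finset.sum_congr rfl fun j _ => ?_
  have h1 := H (b i j + b' j) x y
  rw [LinearMap.add_apply, LinearMap.add_apply, st_add, mul_add, add_mul, add_mul, tau_add, tau_add, tau_add,
    H (b i j) x y, H (b' j) x y, zero_add, add_zero, add_comm] at h1
  have h2 : tau (b i j x * st (b' j y)) = tau (b' j x * st (b i j y)) := by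
    have h3 : ∀ p q : ZMod 2, p + q = 0 → p = q := by decide
    exact h3 _ _ h1
  rw [h2, t_symm]

omit [Finite B] [Finite V] in
/-- (i) If all invariant forms are symmetric and `e V = 0`, then all forms `t_b` vanish. -/
theorem t_of_symm [TE B] (he : ∀ v : V, (TE.e : B) • v = 0)
    (H : ∀ β : V → V → ZMod 2, IF B β → ∀ x y, β x y = β y x)
    (b : V →ₗ[B] B) (x y : V) : tau (b x * st (b y)) = 0 := by
  have hs : IF B (fun x y : V => tau (b x * TE.z * st (b y))) := by
    have := IF_t (B := B) ((LinearMap.toSpanSingleton B B TE.z).comp b) b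
    exact this
  have h1 := H _ hs x y
  have h2 : tau (b y * TE.z * st (b x)) = tau (b x * st TE.z * st (b y)) := by
    rw [← tau_st, st_mul, st_mul, st_st, mul_assoc]
  rw [h2] at h1
  have h3 : tau (b x * (TE.z + st TE.z) * st (b y)) = 0 := by
    rw [mul_add, add_mul, tau_add, h1]
    exact CharTwo.add_self_eq_zero _
  rw [TE.zz, mul_add, mul_one] at h3
  have h4 : b x * TE.e = 0 := by
    rw [TE.cen, ← smul_eq_mul, ← map_smul, he, map_zero]
  rwa [h4, add_zero] at h3

end T

end H49GN
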