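import Pool.Agent.H49.GN.Ab

/-!
MP_78d38b_GN (helper49): the algebra of 6.3 and 6.4 of /team-store/H26_78d38b_GN.md.
-/

set_option autoImplicit false
open scoped Classical

namespace H49GN

open H26GN

variable {B V : Type} [Ring B] [TR B] [AddCommGroup V] [Module B V]

theorem bal_of {β : V → V → ZMod 2} (h : IF B β) (hnd : ∀ x, (∀ y, β x y + β y x = 0) → x = 0) :
    Bal B V := ⟨β, ⟨h.addl, h.addr, h.inv⟩, hnd⟩

theorem of_bal (h : Bal B V) :
    ∃ β : V → V → ZMod 2, IF B β ∧ ∀ x, (∀ y, β x y + β y x = 0) → x = 0 := by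
  obtain ⟨β, ⟨h1, h2, h3⟩, h4⟩ := h
  exact ⟨β, ⟨h1, h2, h3⟩, h4⟩

/-- The orthogonal projection to a nondegenerate submodule. -/
theorem exists_proj [Finite V] {ω : V → V → ZMod 2} (h : IF B ω) (C : Submodule B V)
    (h1 : ∀ x ∈ C, (∀ y ∈ C, ω x y = 0) → x = 0) :
    ∃ p : V →ₗ[B] C, (∀ v, ∀ y ∈ C, ω (p v) y = ω v y) ∧ ∀ c : C, p c = c := by
  obtain ⟨p, hp⟩ := exists_lift h C C h1 le_rfl (h.du C)
  have hp' : ∀ v, ∀ y ∈ C, ω (p v) y = ω v y := fun v y hy => hp v ⟨y, hy⟩
  refine ⟨p, hp', fun c => ?_⟩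
  have h2 : ((p c - c : C) : V) = 0 := by
    apply h1 _ (p c - c).2
    intro y hy
    have h3 : ω ((p (c : V) : V) - c + c) y = ω (c : V) y := by rw [sub_add_cancel]; exact hp' c y hy
    rw [h.addl] at h3
    have h4 : ∀ a b : ZMod 2, a + b = b → a = 0 := by decide
    exact h4 _ _ h3
  exact sub_eq_zero.1 (Subtype.ext h2)

/-- The orthogonal complement of a nondegenerate submodule is balanced. -/
theorem bal_perp [Finite V] {β : V → V → ZMod 2} (h : IF B β)
    (hnd : ∀ x, (∀ y, β x y + β y x = 0) → x = 0) (C : Submodule B V)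
    (h1 : ∀ x ∈ C, (∀ y ∈ C, β x y + β y x = 0) → x = 0) (D : Submodule B V)
    (hD : ∀ x, x ∈ D ↔ ∀ y ∈ C, β x y + β y x = 0) : Bal B D := by
  refine bal_of (h.comap D.subtype D.subtype) ?_
  intro x hx
  obtain ⟨p, hp, -⟩ := exists_proj h.om C h1
  apply Subtype.ext
  apply hnd
  intro y
  have h2 : y - p y ∈ D := by
    rw [hD]
    intro z hz
    have h3 := hp y z hz
    have h4 : h.om.du ⊤ (y - p y) ⟨z, Submodule.mem_top⟩ = 0 := by
      rw [map_sub]
      change h.om.du ⊤ y ⟨z, Submodule.mem_top⟩ - h.om.du ⊤ (p y : V) ⟨z, Submodule.mem_top⟩ = 0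
      rw [IF.du_apply, IF.du_apply]
      exact sub_eq_zero.2 h3.symm
    exact h4
  have h3 := hx ⟨y - p y, h2⟩
  change β (x : V) (y - p y) + β (y - p y) (x : V) = 0 at h3
  have h4 := (hD x).1 x.2 (p y) (p y).2
  have h5 := h.om.addr (x : V) (y - p y) (p y)
  rw [sub_add_cancel, h3, h4, add_zero] at h5
  exact h5

/-- 6.3: a balanced module `V ≠ 0` with `e V = 0` has a functional with image `B f` and balanced kernel. -/
theorem exists_step [Finite B] [Finite V] [IsSemisimpleRing B] [TE B] (hV : Bal B V)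
    (he : ∀ v : V, (TE.e : B) • v = 0) (hne : ∃ v : V, v ≠ 0) :
    ∃ (f : B) (b : V →ₗ[B] B), f * f = f ∧ st f = f ∧ TE.e * f = 0 ∧ (∀ v, b v * f = b v) ∧
      (∃ v, b v = f) ∧ (∃ v, b v ≠ 0) ∧ Bal B (LinearMap.ker b) := by
  obtain ⟨β, h, hnd⟩ := of_bal hV
  obtain ⟨C, ⟨hC0, hC1⟩, hCmin⟩ := (wellFounded_lt (α := Submodule B V)).has_min
    {C : Submodule B V | C ≠ ⊥ ∧ ∀ x ∈ C, (∀ y ∈ C, β x y + β y x = 0) → x = 0}
    ⟨⊤, ⟨by
      intro h2
      obtain ⟨v, hv⟩ := hne
      apply hv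
      have h3 : v ∈ (⊤ : Submodule B V) := Submodule.mem_top
      rw [h2] at h3
      exact (Submodule.mem_bot B).1 h3, fun x _ hx => hnd x fun y => hx y Submodule.mem_top⟩⟩
  obtain ⟨b, hb⟩ := exists_nd (B := B) (V := C) (fun v => Subtype.ext (he v))
    (h.comap C.subtype C.subtype) (fun x hx => Subtype.ext (hC1 x x.2 fun y hy => hx ⟨y, hy⟩))
    (fun D hD0 hD1 => by
      by_contra hcon
      push Not at hcon
      refine hCmin (D.map C.subtype) ⟨?_, ?_⟩ ?_
      · intro h2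
        apply hD0
        rw [eq_bot_iff]
        intro x hx
        have h3 : C.subtype x ∈ D.map C.subtype := ⟨x, hx, rfl⟩
        rw [h2, Submodule.mem_bot] at h3
        rw [Submodule.mem_bot]
        exact Subtype.ext h3
      · rintro _ ⟨x, hx, rfl⟩ h2
        by_contra h3
        obtain ⟨y, hy, hy'⟩ := hcon x hx (fun h4 => h3 (by rw [h4, map_zero]))
        exact hy' (h2 _ ⟨y, hy, rfl⟩)
      · rw [lt_iff_le_and_ne]
        refine ⟨Submodule.map_subtype_le C D, fun h2 => hD1 ?_⟩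
        rw [eq_top_iff]
        intro x _
        have h3 : (x : V) ∈ D.map C.subtype := by rw [h2]; exact x.2
        obtain ⟨y, hy, hyx⟩ := h3
        have h4 : y = x := Subtype.ext hyx
        rwa [h4] at hy)
    (by
      obtain ⟨x, hx, hx0⟩ := Submodule.exists_mem_ne_zero_of_ne_bot hC0
      exact ⟨⟨x, hx⟩, fun h2 => hx0 (congrArg Subtype.val h2)⟩)
  have hbinj : ∀ x, b x = 0 → x = 0 := by
    intro x hx
    apply hb
    intro y
    rw [hx, zero_mul, tau_zero]
  obtain ⟨f, hfI, hff, hfs, hf⟩ := exists_idem (LinearMap.range b) (by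
    rintro _ ⟨x, rfl⟩ h2
    rw [hb x fun y => h2 _ ⟨y, rfl⟩, map_zero])
  obtain ⟨p, hp, hpc⟩ := exists_proj h.om C hC1
  obtain ⟨c0, hc0⟩ := hfI
  obtain ⟨x, hx, hx0⟩ := Submodule.exists_mem_ne_zero_of_ne_bot hC0
  refine ⟨f, b.comp p, hff, hfs, ?_, fun v => hf _ ⟨_, rfl⟩, ⟨c0, ?_⟩, ⟨x, ?_⟩, ?_⟩
  · rw [← hc0, ← smul_eq_mul, ← map_smul]
    have h2 : (TE.e : B) • c0 = 0 := Subtype.ext (he c0)
    rw [h2, map_zero]
  · change b (p c0) = f
    rw [hpc, hc0]
  · change b (p x) ≠ 0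
    intro h2
    have h3 := hbinj _ h2
    have h4 := hpc ⟨x, hx⟩
    apply hx0
    have h5 : (⟨x, hx⟩ : C) = 0 := by rw [← h4]; exact h3
    exact congrArg Subtype.val h5
  · refine bal_perp h hnd C hC1 _ (fun v => ?_)
    rw [LinearMap.mem_ker]
    change b (p v) = 0 ↔ _
    constructor
    · intro h2 y hy
      have h3 := hp v y hy
      rw [hbinj _ h2] at h3
      have h4 : β ((0 : C) : V) y + β y ((0 : C) : V) = 0 := by
        rw [Submodule.coe_zero, h.zerol, h.zeror, add_zero]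
      rw [← h3]
      exact h4
    · intro h2
      have h3 : ((p v : C) : V) = 0 := hC1 _ (p v).2 fun y hy => (hp v y hy).trans (h2 y hy)
      have h4 : p v = 0 := Subtype.ext h3
      rw [h4, map_zero]

/-- 6.4: the two functionals in the case `e V ≠ 0`. -/
theorem exists_step_e [Finite B] [Finite V] [TE B] (hV : Bal B V)
    (hne : ∃ v : V, (TE.e : B) • v ≠ 0) :
    ∃ (b₁ b₂ : V →ₗ[B] B), (∀ v, b₁ v * TE.e = b₁ v) ∧ (∀ v, b₂ v * TE.e = b₂ v) ∧
      (∃ x, b₁ x = 0 ∧ b₂ x = TE.e) ∧ (∃ y, b₁ y = TE.e ∧ b₂ y = 0) ∧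
      Bal B (LinearMap.ker b₁ ⊓ LinearMap.ker b₂ : Submodule B V) := by
  obtain ⟨β, h, hnd⟩ := of_bal hV
  have he01 : ∀ a : B, st a * TE.e = a * TE.e := by
    intro a
    rcases TE.triv a with h1 | h1
    · rw [h1, ← st_st (TE.e : B), ← st_mul, TE.ste, ← TE.cen, h1, st_zero]
    · rw [h1, ← TE.ste, ← st_mul, ← TE.cen, h1, TE.ste]
  have hom0 : ∀ x, β x x + β x x = 0 := fun x => CharTwo.add_self_eq_zero _
  -- the functional of an element fixed by `e`
  have hfun : ∀ x : V, (TE.e : B) • x = x → ∃ b : V →ₗ[B] B,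
      ∀ v, b v = if β v x + β x v = 0 then 0 else TE.e := by
    intro x hx
    have hadd : ∀ v w, (if β (v + w) x + β x (v + w) = 0 then 0 else (TE.e : B)) =
        (if β v x + β x v = 0 then 0 else TE.e) + (if β w x + β x w = 0 then 0 else TE.e) := by
      intro v w
      have h1 := h.om.addl v w x
      have h2 : ∀ p : ZMod 2, p = 0 ∨ p = 1 := by decide
      rw [h1]
      rcases h2 (β v x + β x v) with h3 | h3 <;> rcases h2 (β w x + β x w) with h4 | h4
      · rw [h3, h4]; simp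
      · rw [h3, h4]; simp
      · rw [h3, h4]; simp
      · rw [h3, h4]
        have h5 : (1 : ZMod 2) + 1 = 0 := by decide
        rw [h5, if_pos rfl, if_neg one_ne_zero, add_self]
    refine ⟨⟨⟨fun v => if β v x + β x v = 0 then 0 else TE.e, hadd⟩, ?_⟩, fun v => rfl⟩
    intro a v
    change (if β (a • v) x + β x (a • v) = 0 then 0 else (TE.e : B)) =
      a * (if β v x + β x v = 0 then 0 else TE.e)
    have h1 := h.om.inv a v x
    have h2 : st a • x = (a * TE.e) • x := by
      conv_lhs => rw [← hx, ← mul_smul, he01]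
    rw [h1, h2]
    rcases TE.triv a with h3 | h3
    · rw [h3, zero_smul, h.zerol, h.zeror, add_zero, if_pos rfl]
      split_ifs
      · rw [mul_zero]
      · rw [h3]
    · rw [h3, hx]
      split_ifs
      · rw [mul_zero]
      · rw [h3]
  obtain ⟨v0, hv0⟩ := hne
  obtain ⟨y1, hy1⟩ : ∃ y, β ((TE.e : B) • v0) y + β y ((TE.e : B) • v0) ≠ 0 := by
    by_contra hcon
    push Not at hcon
    exact hv0 (hnd _ hcon)
  obtain ⟨x0, hx0⟩ : ∃ x0, x0 = (TE.e : B) • v0 := ⟨_, rfl⟩
  obtain ⟨y0, hy0⟩ : ∃ y0, y0 = (TE.e : B) • y1 := ⟨_, rfl⟩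
  have hex : (TE.e : B) • x0 = x0 := by rw [hx0, ← mul_smul, TE.ee]
  have hey : (TE.e : B) • y0 = y0 := by rw [hy0, ← mul_smul, TE.ee]
  have hxy : β x0 y0 + β y0 x0 = 1 := by
    have h1 := h.om.inv (TE.e : B) x0 y1
    rw [TE.ste, ← hy0, hex] at h1
    rw [← h1, hx0]
    have h2 : ∀ p : ZMod 2, p ≠ 0 → p = 1 := by decide
    exact h2 _ hy1
  have hyx : β y0 x0 + β x0 y0 = 1 := by rw [add_comm]; exact hxy
  obtain ⟨b1, hb1⟩ := hfun x0 hex
  obtain ⟨b2, hb2⟩ := hfun y0 hey
  refine ⟨b1, b2, ?_, ?_, ⟨x0, ?_, ?_⟩, ⟨y0, ?_, ?_⟩, ?_⟩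
  · intro v
    rw [hb1]
    split_ifs
    · rw [zero_mul]
    · rw [TE.ee]
  · intro v
    rw [hb2]
    split_ifs
    · rw [zero_mul]
    · rw [TE.ee]
  · rw [hb1, if_pos (hom0 x0)]
  · rw [hb2, hxy, if_neg one_ne_zero]
  · rw [hb1, hyx, if_neg one_ne_zero]
  · rw [hb2, if_pos (hom0 y0)]
  · have hkey : ∀ x, x ∈ (LinearMap.ker b1 ⊓ LinearMap.ker b2 : Submodule B V) ↔
        β x x0 + β x0 x = 0 ∧ β x y0 + β y0 x = 0 := by
      intro x
      rw [Submodule.mem_inf, LinearMap.mem_ker, LinearMap.mem_ker, hb1, hb2]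
      constructor
      · rintro ⟨h1, h2⟩
        constructor
        · by_contra h3
          rw [if_neg h3] at h1
          exact TE.ne h1
        · by_contra h3
          rw [if_neg h3] at h2
          exact TE.ne h2
      · rintro ⟨h1, h2⟩
        rw [if_pos h1, if_pos h2]
        exact ⟨rfl, rfl⟩
    refine bal_perp h hnd (Submodule.span B {x0, y0}) ?_ _ (fun x => ?_)
    · intro x hx h1
      have h2 := h1 x0 (Submodule.subset_span (Set.mem_insert _ _))
      have h3 := h1 y0 (Submodule.subset_span (Set.mem_insert_of_mem _ rfl))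
      obtain ⟨a, c, rfl⟩ := Submodule.mem_span_pair.1 hx
      have ha : ∀ (a : B) (z : V), (TE.e : B) • z = z → a • z = 0 ∨ a • z = z := by
        intro a z hz
        rcases TE.triv a with h4 | h4
        · left; rw [← hz, ← mul_smul, h4, zero_smul]
        · right; rw [← hz, ← mul_smul, h4]
      have hxx : β x0 x0 + β x0 x0 = 0 := hom0 x0
      have hyy : β y0 y0 + β y0 y0 = 0 := hom0 y0
      rcases ha a x0 hex with h4 | h4 <;> rcases ha c y0 hey with h5 | h5
      · rw [h4, h5, add_zero]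
      · exfalso
        rw [h4, h5, zero_add] at h2
        rw [hyx] at h2
        exact one_ne_zero h2
      · exfalso
        rw [h4, h5, add_zero] at h3
        rw [hxy] at h3
        exact one_ne_zero h3
      · exfalso
        rw [h4, h5] at h3
        have h6 := h.om.addl x0 y0 y0
        rw [h3, hxy, hyy, add_zero] at h6
        exact zero_ne_one h6
    · rw [hkey]
      constructor
      · intro h12 y hy
        refine Submodule.span_induction (p := fun y _ => ∀ x, β x x0 + β x0 x = 0 ∧ β x y0 + β y0 x = 0 →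
          β x y + β y x = 0) ?_ ?_ ?_ ?_ hy x h12
        · rintro y (rfl | rfl) x ⟨h1, h2⟩
          · exact h1
          · exact h2
        · intro x _
          rw [h.zerol, h.zeror, add_zero]
        · intro y z _ _ h3 h4 x h1
          have h5 := h.om.addr x y z
          rw [h5, h3 x h1, h4 x h1, add_zero]
        · intro a y _ h3 x h1
          rw [← hkey] at h1
          have h4 := h3 (st a • x) ((hkey _).1 (Submodule.smul_mem _ _ h1))
          have h5 := h.om.inv (st a) x y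
          rw [st_st] at h5
          rw [← h5]
          exact h4
      · intro h1
        exact ⟨h1 x0 (Submodule.subset_span (Set.mem_insert _ _)),
          h1 y0 (Submodule.subset_span (Set.mem_insert_of_mem _ rfl))⟩

end H49GN
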