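import Pool.Agent.H26.GN.D1
import Pool.Agent.H26.GN.Nec

/-!
MP_78d38b_GN (helper49): the kernel of a matrix over a ring (interface of the algebra part of the necessity).
Paper: /team-store/H26_78d38b_GNnec.md.
-/

set_option autoImplicit false
open scoped Classical

namespace H49GN

open H26GN

/-- The left kernel of a matrix. -/
def KM {A I : Type} [Ring A] [Fintype I] (h : I → I → A) : Submodule A (I → A) where
  carrier := {x | ∀ j, ∑ i, x i * h i j = 0}
  zero_mem' := fun j => Finset.sum_eq_zero fun i _ => zero_mul _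
  add_mem' := fun {x y} hx hy j => by
    have e : ∀ i, (x + y) i * h i j = x i * h i j + y i * h i j := fun i => add_mul _ _ _
    rw [Finset.sum_congr rfl fun i _ => e i, Finset.sum_add_distrib, hx j, hy j, add_zero]
  smul_mem' := fun a x hx j => by
    have e : ∀ i, (a • x) i * h i j = a * (x i * h i j) := fun i => mul_assoc _ _ _
    rw [Finset.sum_congr rfl fun i _ => e i, ← Finset.mul_sum, hx j, mul_zero]

theorem mem_KM {A I : Type} [Ring A] [Fintype I] {h : I → I → A} {x : I → A} :
    x ∈ KM h ↔ ∀ j, ∑ i, x i * h i j = 0 := Iff.rfl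

/-- The symmetrized matrix. -/
def sym {A I : Type} [Ring A] [TR A] (c : I → I → A) (i j : I) : A := c i j + st (c j i)

/- Part (a), helper95 (file Pool/Agent/H95/GN/Na.lean):
theorem exists_c {G V : Type} [Group G] [Finite G] [AddCommGroup V] {act : G → V → V} {W : AddSubgroup V}
    (h : Nec act W) :
    ∃ c : Fin h.m ⊕ Fin h.m → Fin h.m ⊕ Fin h.m → H26OD.RG G, ∀ y ∈ h.Y, (y ∈ W ↔ h.R y ∈ KM (sym c))

   Part (b), helper95 (file Pool/Agent/H95/GN/Nb.lean):
theorem sbal_of_bal {A I : Type} [Ring A] [TR A] [Finite A] [TR (QJ A)] [Fintype I] (hc : Cpt A) (M : I → I → A)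
    (hb : Bal (QJ A) (KM fun i j => mkA (M i j))) : SBal (KM M)

   Parts (c) - (h), helper49 (files Ba, Bb):
theorem bal_ker {B : Type} [Ring B] [TR B] [Finite B] [IsSemisimpleRing B] {m : ℕ}
    (c : Fin m ⊕ Fin m → Fin m ⊕ Fin m → B) : Bal B (KM (sym c))
   and the end (SBal (KM (sym c)) → GBal act W), helper49 (file Al).
-/

end H49GN
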