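import Pool.Agent.H49.GN.Ba
import Pool.Agent.H49.GN.If

/-!
MP_78d38b_GN (helper49): cancellation of balanced modules, the kernel of an even matrix of even size is balanced
(parts (c), (d), (f), (g), (h) of /team-store/H26_78d38b_GNnec.md).
-/

set_option autoImplicit false
open scoped Classical

namespace H49GN

open H26GN

variable {B : Type} [Ring B] [TR B] [Finite B] [IsSemisimpleRing B]

section Split

variable {M S : Type} [AddCommGroup M] [Module B M] [AddCommGroup S] [Module B S] [Finite M] [Finite S]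

omit [TR B] [Finite B] [IsSemisimpleRing B] [Finite M] [Finite S] in
theorem fst_equiv {E : Type} [AddCommGroup E] [Module B E] (g : E →ₗ[B] M × S)
    (h1 : ∀ x, (g x).1 = 0 → x = 0) (h2 : ∀ m, ∃ x, (g x).1 = m) : Nonempty (M ≃ₗ[B] E) := by
  refine ⟨(LinearEquiv.ofBijective ((LinearMap.fst B M S).comp g) ⟨?_, ?_⟩).symm⟩
  · rw [← LinearMap.ker_eq_bot, LinearMap.ker_eq_bot']
    intro x hx
    exact h1 x hx
  · intro m
    obtain ⟨x, hx⟩ := h2 m
    exact ⟨x, hx⟩

/-- (d) A simple summand of a balanced module. -/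
theorem split [hS : IsSimpleModule B S] (h : Bal B (M × S)) :
    (Bal B S ∧ Bal B M) ∨ ∃ (D : Submodule B (M × S)), Bal B D ∧ Nonempty (M ≃ₗ[B] Du S × D) := by
  obtain ⟨β, hβ, hnd⟩ := bal_iff.1 h
  obtain ⟨S₀, hS₀⟩ : ∃ S₀ : Submodule B (M × S), S₀ = LinearMap.ker (LinearMap.fst B M S) := ⟨_, rfl⟩
  have hm : ∀ x : M × S, x ∈ S₀ ↔ x.1 = 0 := fun x => by rw [hS₀, LinearMap.mem_ker]; rfl
  obtain ⟨e₀⟩ : Nonempty (S ≃ₗ[B] S₀) := by
    refine ⟨LinearEquiv.ofBijective (LinearMap.codRestrict S₀ (LinearMap.inr B M S)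
      (fun s => (hm _).2 rfl)) ⟨?_, ?_⟩⟩
    · intro s s' hs
      exact congrArg (fun z : S₀ => (z : M × S).2) hs
    · rintro ⟨x, hx⟩
      exact ⟨x.2, Subtype.ext (Prod.ext ((hm x).1 hx).symm rfl)⟩
  have hsim : IsSimpleModule B S₀ := IsSimpleModule.congr e₀.symm
  by_cases hc : ∀ x ∈ S₀, (∀ y ∈ S₀, β x y + β y x = 0) → x = 0
  · left
    obtain ⟨D, hD, hbD⟩ := split_nd hβ hnd S₀ hc
    refine ⟨bal_congr e₀.symm (bal_iff.2 ⟨fun x y => β x y, hβ.comap S₀.subtype S₀.subtype,
      fun x hx => ?_⟩), ?_⟩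
    · apply Subtype.ext
      exact hc x x.2 fun y hy => hx ⟨y, hy⟩
    · obtain ⟨e⟩ := fst_equiv (M := M) (S := S) D.subtype (fun x hx => by
        apply Subtype.ext
        exact Submodule.disjoint_def.1 hD.disjoint x ((hm _).2 hx) x.2) (fun m => by
        have h1 : ((m, 0) : M × S) ∈ S₀ ⊔ D := by
          rw [hD.sup_eq_top]
          exact Submodule.mem_top
        obtain ⟨s, hs, d, hd, hsd⟩ := Submodule.mem_sup.1 h1
        refine ⟨⟨d, hd⟩, ?_⟩
        have h2 := congrArg Prod.fst hsd
        rw [Prod.fst_add, (hm s).1 hs, zero_add] at h2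
        exact h2)
      exact bal_congr e.symm hbD
  · right
    have hω := hβ.om
    push Not at hc
    obtain ⟨x₀, hx₀, hx₀', hx₀0⟩ := hc
    have hiso : ∀ x ∈ S₀, ∀ y ∈ S₀, β x y + β y x = 0 := by
      intro x hx y hy
      exact eq_zero_of_simple (hω.comap S₀.subtype S₀.subtype) hsim (x := ⟨x₀, hx₀⟩)
        (fun h2 => hx₀0 (congrArg Subtype.val h2)) (fun y => hx₀' y y.2) ⟨x, hx⟩ ⟨y, hy⟩
    have hperp : ∀ x, x ∈ LinearMap.ker (hω.du S₀) ↔ ∀ y ∈ S₀, β x y + β y x = 0 := by
      intro x
      rw [LinearMap.mem_ker]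
      constructor
      · intro h2 y hy
        exact DFunLike.congr_fun h2 ⟨y, hy⟩
      · intro h2
        apply DFunLike.ext
        intro y
        exact h2 y y.2
    have hle : S₀ ≤ LinearMap.ker (hω.du S₀) := fun x hx => (hperp x).2 (hiso x hx)
    obtain ⟨S', hS'⟩ := exists_isCompl (LinearMap.ker (hω.du S₀))
    have hi1 : ∀ x ∈ S', (∀ y ∈ S₀, β x y + β y x = 0) → x = 0 := fun x hx h1 =>
      Submodule.disjoint_def.1 hS'.disjoint x ((hperp x).2 h1) hx
    have hi2 : ∀ s ∈ S₀, (∀ y ∈ S', β s y + β y s = 0) → s = 0 := by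
      intro s hs h1
      apply hnd
      intro y
      have h2 : y ∈ LinearMap.ker (hω.du S₀) ⊔ S' := by
        rw [hS'.sup_eq_top]
        exact Submodule.mem_top
      obtain ⟨p, hp, q, hq, hpq⟩ := Submodule.mem_sup.1 h2
      have h3 := (hperp p).1 hp s hs
      have h4 := h1 q hq
      rw [← hpq, hβ.addl, hβ.addr]
      linear_combination h3 + h4
    have hinj1 : Function.Injective ((hω.du S₀).domRestrict S') := by
      rw [← LinearMap.ker_eq_bot, LinearMap.ker_eq_bot']
      intro x hx
      apply Subtype.ext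
      exact hi1 x x.2 fun y hy => DFunLike.congr_fun hx ⟨y, hy⟩
    have hinj2 : Function.Injective ((hω.du S').domRestrict S₀) := by
      rw [← LinearMap.ker_eq_bot, LinearMap.ker_eq_bot']
      intro x hx
      apply Subtype.ext
      exact hi2 x x.2 fun y hy => DFunLike.congr_fun hx ⟨y, hy⟩
    have hbij : Function.Bijective ((hω.du S₀).domRestrict S') := by
      refine (Nat.bijective_iff_injective_and_card _).2 ⟨hinj1, le_antisymm ?_ ?_⟩
      · exact Nat.card_le_card_of_injective _ hinj1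
      · have h1 := Nat.card_le_card_of_injective _ hinj2
        rw [card_du (V := S') (mod_two (B := B))] at h1
        rw [card_du (V := S₀) (mod_two (B := B))]
        exact h1
    have eS' : S' ≃ₗ[B] Du S₀ := LinearEquiv.ofBijective _ hbij
    have hSd : Disjoint S₀ S' := hS'.disjoint.mono_left hle
    have hC : ∀ x ∈ S₀ ⊔ S', (∀ y ∈ S₀ ⊔ S', β x y + β y x = 0) → x = 0 := by
      intro x hx hxy
      obtain ⟨s, hs, s', hs', rfl⟩ := Submodule.mem_sup.1 hx
      have h1 : s' = 0 := by
        apply hi1 s' hs'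
        intro y hy
        have h2 := hxy y (Submodule.mem_sup_left hy)
        have h3 := hiso s hs y hy
        rw [hβ.addl, hβ.addr] at h2
        linear_combination h2 - h3
      subst h1
      rw [add_zero] at hxy ⊢
      exact hi2 s hs fun y hy => hxy y (Submodule.mem_sup_right hy)
    obtain ⟨D, hD, hbD⟩ := split_nd hβ hnd (S₀ ⊔ S') hC
    obtain ⟨e⟩ := fst_equiv (M := M) (S := S) (LinearMap.coprod S'.subtype D.subtype) (fun x hx => by
        have h1 : (x.1 : M × S) + x.2 ∈ S₀ := (hm _).2 hx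
        have h2 : (x.2 : M × S) = ((x.1 : M × S) + x.2) - x.1 := by abel
        have h3 : (x.2 : M × S) = 0 := by
          refine Submodule.disjoint_def.1 hD.disjoint _ ?_ x.2.2
          rw [h2]
          exact Submodule.sub_mem _ (Submodule.mem_sup_left h1) (Submodule.mem_sup_right x.1.2)
        rw [h3, add_zero] at h1
        exact Prod.ext (Subtype.ext (Submodule.disjoint_def.1 hSd _ h1 x.1.2)) (Subtype.ext h3)) (fun m => by
        have h1 : ((m, 0) : M × S) ∈ (S₀ ⊔ S') ⊔ D := by
          rw [hD.sup_eq_top]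
          exact Submodule.mem_top
        obtain ⟨c, hc, d, hd, hcd⟩ := Submodule.mem_sup.1 h1
        obtain ⟨s, hs, s', hs', rfl⟩ := Submodule.mem_sup.1 hc
        refine ⟨(⟨s', hs'⟩, ⟨d, hd⟩), ?_⟩
        have h2 := congrArg Prod.fst hcd
        rw [Prod.fst_add, Prod.fst_add, (hm s).1 hs, zero_add] at h2
        exact h2)
    obtain ⟨f⟩ : Nonempty (Du S₀ ≃ₗ[B] Du S) := by
      refine ⟨LinearEquiv.ofBijective (A7_dual e₀.toLinearMap) ⟨?_, ?_⟩⟩
      · intro φ ψ h1
        apply DFunLike.ext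
        intro x
        have h2 := DFunLike.congr_fun h1 (e₀.symm x)
        rw [A7_dual_apply, A7_dual_apply] at h2
        change φ (e₀ (e₀.symm x)) = ψ (e₀ (e₀.symm x)) at h2
        rwa [e₀.apply_symm_apply] at h2
      · intro φ
        refine ⟨A7_dual e₀.symm.toLinearMap φ, ?_⟩
        apply DFunLike.ext
        intro x
        change φ (e₀.symm (e₀ x)) = φ x
        rw [e₀.symm_apply_apply]
    exact ⟨D, hbD, ⟨e.trans ((eS'.trans f).prodCongr (LinearEquiv.refl B D))⟩⟩

/-- (f) -/
theorem cancel_f [IsSimpleModule B S] (hS : Bal B S) (h : Bal B (M × S)) : Bal B M := by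
  rcases split h with ⟨-, h1⟩ | ⟨D, hD, ⟨e⟩⟩
  · exact h1
  · obtain ⟨d⟩ := du_equiv hS
    exact bal_congr e.symm (bal_prod (bal_congr d hS) hD)

/-- (g) -/
theorem cancel_g [IsSimpleModule B S] (h : Bal B ((M × Du S) × S)) : Bal B M := by
  haveI := simple_du (B := B) S
  rcases split h with ⟨hS, h1⟩ | ⟨D, hD, ⟨e⟩⟩
  · obtain ⟨d⟩ := du_equiv hS
    exact cancel_f (bal_congr d hS) h1
  · obtain ⟨k⟩ := cancel_simple (e.trans (LinearEquiv.prodComm B (Du S) D))
    exact bal_congr k.symm hD

end Split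

/-- (h) -/
theorem bal_cancel_aux (n : ℕ) : ∀ (N : Type) [AddCommGroup N] [Module B N] [Finite N], Nat.card N ≤ n →
    ∀ (M : Type) [AddCommGroup M] [Module B M] [Finite M], Bal B (M × N) → Bal B N → Bal B M := by
  induction n with
  | zero =>
    intro N _ _ _ hN
    have := Nat.card_pos (α := N)
    omega
  | succ n ih =>
    intro N _ _ _ hN M _ _ _ h h'
    rcases IsSemisimpleModule.eq_bot_or_exists_simple_le (R := B) (M := N) ⊤ with h1 | ⟨S, -, hS⟩
    · have hsub : Subsingleton N := (Submodule.subsingleton_iff B).1 (subsingleton_of_bot_eq_top h1.symm)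
      exact bal_congr (LinearEquiv.ofBijective (LinearMap.fst B M N)
        ⟨fun x y hxy => Prod.ext hxy (Subsingleton.elim _ _), fun x => ⟨(x, 0), rfl⟩⟩) h
    obtain ⟨D, hD⟩ := exists_isCompl S
    have e : (D × S) ≃ₗ[B] N := (LinearEquiv.prodComm B D S).trans (Submodule.prodEquivOfIsCompl _ _ hD)
    have hcN : Nat.card N = Nat.card D * Nat.card S := by
      rw [← Nat.card_prod, Nat.card_congr e.toEquiv]
    have hS2 : 1 < Nat.card S := Finite.one_lt_card_iff_nontrivial.2 hS.nontrivial
    have hb : Bal B (D × S) := bal_congr e.symm h'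
    have hbM : Bal B (M × (D × S)) := bal_congr ((LinearEquiv.refl B M).prodCongr e.symm) h
    rcases split hb with ⟨h2, h3⟩ | ⟨E, hE, ⟨k⟩⟩
    · have h4 : Bal B ((M × D) × S) := bal_congr (LinearEquiv.prodAssoc B M D S).symm hbM
      refine ih D ?_ M (cancel_f h2 h4) h3
      have := Nat.card_pos (α := D)
      nlinarith
    · have h4 : Bal B (((M × E) × Du S) × S) := by
        have k1 : (M × D) ≃ₗ[B] (M × (E × Du S)) :=
          LinearEquiv.prodCongr (LinearEquiv.refl B M) (k.trans (LinearEquiv.prodComm B (Du S) E))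
        have k2 : (M × D) ≃ₗ[B] ((M × E) × Du S) := k1.trans (LinearEquiv.prodAssoc B M E (Du S)).symm
        have k3 : ((M × D) × S) ≃ₗ[B] (((M × E) × Du S) × S) := LinearEquiv.prodCongr k2 (LinearEquiv.refl B S)
        exact bal_congr ((LinearEquiv.prodAssoc B M D S).symm.trans k3) hbM
      refine ih E ?_ M (cancel_g h4) hE
      have h5 : Nat.card D = Nat.card (Du S) * Nat.card E := by
        rw [← Nat.card_prod, Nat.card_congr k.toEquiv]
      have h6 : 0 < Nat.card (Du S) := Nat.card_pos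
      have h7 : 0 < Nat.card E := Nat.card_pos
      have h8 : Nat.card E ≤ Nat.card D := by
        rw [h5]
        exact Nat.le_mul_of_pos_left _ h6
      have := Nat.card_pos (α := D)
      nlinarith

theorem bal_cancel {M N : Type} [AddCommGroup N] [Module B N] [Finite N] [AddCommGroup M] [Module B M]
    [Finite M] (h : Bal B (M × N)) (h' : Bal B N) : Bal B M :=
  bal_cancel_aux (Nat.card N) N le_rfl M h h'

section Ker

variable {m : ℕ}

omit [Finite B] [IsSemisimpleRing B] in
/-- The hyperbolic form on the free module of even rank. -/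
theorem bal_free : Bal B (Fin m ⊕ Fin m → B) := by
  refine bal_iff.2 ⟨fun x y => tau (∑ k, x (Sum.inl k) * st (y (Sum.inr k))), ⟨fun x x' y => ?_,
    fun x y y' => ?_, fun a x y => ?_⟩, fun x hx => ?_⟩
  · rw [← tau_add, ← Finset.sum_add_distrib]
    congr 1
    exact Finset.sum_congr rfl fun k _ => add_mul _ _ _
  · rw [← tau_add, ← Finset.sum_add_distrib]
    congr 1
    refine Finset.sum_congr rfl fun k _ => ?_
    rw [Pi.add_apply, st_add, mul_add]
  · rw [tau_sum, tau_sum]
    refine Finset.sum_congr rfl fun k _ => ?_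
    change tau (a * x (Sum.inl k) * st (y (Sum.inr k))) = tau (x (Sum.inl k) * st (st a * y (Sum.inr k)))
    rw [st_mul, st_st, mul_assoc, tau_mul_comm, mul_assoc]
  · have h1 : ∀ k, x (Sum.inl k) = 0 := by
      intro k
      apply eq_zero_of_tau
      intro b
      have h2 := hx (Pi.single (Sum.inr k) (st b))
      simp only [] at h2
      rw [Finset.sum_eq_single k, Finset.sum_eq_zero, tau_zero, add_zero, Pi.single_eq_same, st_st,
        tau_mul_comm] at h2
      · exact h2
      · intro j _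
        rw [Pi.single_eq_of_ne Sum.inl_ne_inr, zero_mul]
      · intro j _ hj
        rw [Pi.single_eq_of_ne (fun h => hj (Sum.inr_injective h)), st_zero, mul_zero]
      · intro h
        exact absurd (Finset.mem_univ _) h
    have h3 : ∀ k, x (Sum.inr k) = 0 := by
      intro k
      have h0 : st (x (Sum.inr k)) = 0 := by
        apply eq_zero_of_tau
        intro b
        have h2 := hx (Pi.single (Sum.inl k) b)
        simp only [] at h2
        rw [Finset.sum_eq_zero, tau_zero, zero_add, Finset.sum_eq_single k, Pi.single_eq_same] at h2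
        · exact h2
        · intro j _ hj
          rw [Pi.single_eq_of_ne (fun h => hj (Sum.inl_injective h)), zero_mul]
        · intro h
          exact absurd (Finset.mem_univ _) h
        · intro j _
          rw [Pi.single_eq_of_ne Sum.inr_ne_inl, st_zero, mul_zero]
      rw [← st_st (x (Sum.inr k)), h0, st_zero]
    funext i
    rcases i with k | k
    · exact h1 k
    · exact h3 k

omit [Finite B] [IsSemisimpleRing B] in
theorem form_c (c : Fin m ⊕ Fin m → Fin m ⊕ Fin m → B) :
    IF B (fun x y : Fin m ⊕ Fin m → B => tau (∑ j, (∑ i, x i * c i j) * st (y j))) := by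
  refine ⟨fun x x' y => ?_, fun x y y' => ?_, fun a x y => ?_⟩
  · rw [← tau_add, ← Finset.sum_add_distrib]
    congr 1
    refine Finset.sum_congr rfl fun j _ => ?_
    rw [← add_mul, ← Finset.sum_add_distrib]
    congr 1
    exact Finset.sum_congr rfl fun i _ => add_mul _ _ _
  · rw [← tau_add, ← Finset.sum_add_distrib]
    congr 1
    refine Finset.sum_congr rfl fun j _ => ?_
    rw [Pi.add_apply, st_add, mul_add]
  · rw [tau_sum, tau_sum]
    refine Finset.sum_congr rfl fun j _ => ?_
    have e : ∑ i, (a • x) i * c i j = a * ∑ i, x i * c i j := by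
      rw [Finset.mul_sum]
      exact Finset.sum_congr rfl fun i _ => mul_assoc _ _ _
    rw [e]
    change _ = tau ((∑ i, x i * c i j) * st (st a * y j))
    rw [st_mul, st_st, mul_assoc, tau_mul_comm, mul_assoc]

omit [Finite B] [IsSemisimpleRing B] in
theorem form_sym (c : Fin m ⊕ Fin m → Fin m ⊕ Fin m → B) (x y : Fin m ⊕ Fin m → B) :
    tau (∑ j, (∑ i, x i * c i j) * st (y j)) + tau (∑ j, (∑ i, y i * c i j) * st (x j)) =
      tau (∑ j, (∑ i, x i * sym c i j) * st (y j)) := by
  have e1 : ∀ z w : Fin m ⊕ Fin m → B, ∀ d : Fin m ⊕ Fin m → Fin m ⊕ Fin m → B,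
      tau (∑ j, (∑ i, z i * d i j) * st (w j)) = ∑ j, ∑ i, tau (z i * d i j * st (w j)) := by
    intro z w d
    rw [tau_sum]
    refine Finset.sum_congr rfl fun j _ => ?_
    rw [Finset.sum_mul, tau_sum]
  rw [e1, e1, e1]
  have e2 : ∑ j, ∑ i, tau (y i * c i j * st (x j)) = ∑ j, ∑ i, tau (x i * st (c j i) * st (y j)) := by
    rw [Finset.sum_comm]
    refine Finset.sum_congr rfl fun j _ => Finset.sum_congr rfl fun i _ => ?_
    rw [← tau_st, st_mul, st_mul, st_st, mul_assoc]
  rw [e2, ← Finset.sum_add_distrib]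
  refine Finset.sum_congr rfl fun j _ => ?_
  rw [← Finset.sum_add_distrib]
  refine Finset.sum_congr rfl fun i _ => ?_
  rw [← tau_add, ← add_mul, ← mul_add]
  rfl

omit [Finite B] [IsSemisimpleRing B] in
theorem rad_iff (c : Fin m ⊕ Fin m → Fin m ⊕ Fin m → B) (x : Fin m ⊕ Fin m → B) :
    (∀ y : Fin m ⊕ Fin m → B, tau (∑ j, (∑ i, x i * c i j) * st (y j)) +
      tau (∑ j, (∑ i, y i * c i j) * st (x j)) = 0) ↔ x ∈ KM (sym c) := by
  rw [mem_KM]
  constructor
  · intro h j
    apply eq_zero_of_tau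
    intro b
    have h1 := h (Pi.single j (st b))
    rw [form_sym, Finset.sum_eq_single j, Pi.single_eq_same, st_st, tau_mul_comm] at h1
    · exact h1
    · intro k _ hk
      rw [Pi.single_eq_of_ne hk, st_zero, mul_zero]
    · intro h
      exact absurd (Finset.mem_univ _) h
  · intro h y
    rw [form_sym, Finset.sum_eq_zero, tau_zero]
    intro j _
    rw [h j, zero_mul]

/-- (c) The kernel of an even matrix of even size is balanced. -/
theorem bal_ker (c : Fin m ⊕ Fin m → Fin m ⊕ Fin m → B) : Bal B (KM (sym c)) := by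
  obtain ⟨N, hN⟩ := exists_isCompl (KM (sym c))
  have hc := form_c c
  have h1 : Bal B N := by
    refine bal_iff.2 ⟨_, hc.comap N.subtype N.subtype, fun x hx => ?_⟩
    apply Subtype.ext
    refine Submodule.disjoint_def.1 hN.disjoint _ ?_ x.2
    rw [← rad_iff]
    intro y
    have h2 : y ∈ KM (sym c) ⊔ N := by
      rw [hN.sup_eq_top]
      exact Submodule.mem_top
    obtain ⟨p, hp, q, hq, rfl⟩ := Submodule.mem_sup.1 h2
    have h3 := (rad_iff c p).2 hp x
    have h4 := hx ⟨q, hq⟩
    have h5 := hc.addr x p q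
    have h6 := hc.addl p q x
    change tau (∑ j, (∑ i, (x : Fin m ⊕ Fin m → B) i * c i j) * st (q j)) +
      tau (∑ j, (∑ i, q i * c i j) * st ((x : Fin m ⊕ Fin m → B) j)) = 0 at h4
    rw [h5, h6]
    linear_combination h3 + h4
  exact bal_cancel (bal_congr (Submodule.prodEquivOfIsCompl _ _ hN).symm bal_free) h1

end Ker

end H49GN
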