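import Pool.Agent.H49.GN.Al0
import Pool.Agent.H49.GN.Bb
import Pool.Agent.H95.GN.Na
import Pool.Agent.H95.GN.Nb

/-!
MP_78d38b_GN (helper49): the algebra part of the necessity of the balancedness condition.
Paper: /team-store/H26_78d38b_GNnec.md.
-/

set_option autoImplicit false
open scoped Classical

namespace H49GN

open H26GN
open H26OD (RG)

/-- The radical of an invariant form on a free module of even rank over the group algebra which vanishes on the pairs
`(x, g x)` with `g ^ 2 = 1` has a balanced socle. -/
theorem gbal_of_nec {G V : Type} [Group G] [Finite G] [AddCommGroup V] {act : G → V → V}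
    {W : AddSubgroup V} (h : Nec act W) : GBal act W := by
  obtain ⟨c, hc⟩ := H95GN.exists_c h
  obtain ⟨t, te, hcp⟩ := exists_QB G
  let _ := t
  have hcp' : Cpt (RG G) := hcp
  have hfin' : Finite (QJ (RG G)) := Finite.of_surjective (mkA (A := RG G)) mkA_surj
  refine gbal_end h (sym c) hc (H95GN.sbal_of_bal hcp' _ ?_)
  have e : (fun i j => mkA (sym c i j)) = sym (fun i j => mkA (c i j)) := by
    funext i j
    unfold sym
    rw [mkA_add, hcp']
  rw [e]
  exact bal_ker _

end H49GN
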