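import Pool.Agent.H49.GN.Aa

/-!
MP_78d38b_GN (helper49): 6.3 of /team-store/H26_78d38b_GN.md, the functional with nondegenerate form.
-/

set_option autoImplicit false
open scoped Classical

namespace H49GN

open H26GN

variable {B V : Type} [Ring B] [TR B] [AddCommGroup V] [Module B V]

/-- The map to the dual module. -/
noncomputable def IF.dual {β : V → V → ZMod 2} (h : IF B β) : V →ₗ[B] Du V where
  toFun x := (⟨⟨fun y : V => β x y, h.zeror x⟩, fun y y' => h.addr x y y'⟩ : V →+ ZMod 2)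
  map_add' x x' := by
    apply DFunLike.ext
    intro y
    exact h.addl x x' y
  map_smul' a x := by
    apply DFunLike.ext
    intro y
    exact h.inv a x y

theorem IF.dual_apply {β : V → V → ZMod 2} (h : IF B β) (x y : V) : h.dual x y = β x y := rfl

/-- Perfect pairings: linear maps to the dual of `D` come from linear maps to `C`. -/
theorem exists_lift [Finite V] {ω : V → V → ZMod 2} (h : IF B ω) (C D : Submodule B V)
    (h1 : ∀ x ∈ C, (∀ y ∈ D, ω x y = 0) → x = 0) (h2 : Nat.card D ≤ Nat.card C)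
    {W : Type} [AddCommGroup W] [Module B W] (F : W →ₗ[B] Du D) :
    ∃ ψ : W →ₗ[B] C, ∀ (w : W) (y : D), ω (ψ w) y = F w y := by
  have hinj : Function.Injective ((h.du D).domRestrict C) := by
    rw [← LinearMap.ker_eq_bot, LinearMap.ker_eq_bot']
    intro x hx
    apply Subtype.ext
    apply h1 _ x.2
    intro y hy
    have := DFunLike.congr_fun hx (⟨y, hy⟩ : D)
    exact this
  have hcd : Nat.card (Du D) = Nat.card D := card_du (mod_two (B := B))
  have hbij : Function.Bijective ((h.du D).domRestrict C) := by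
    refine (Nat.bijective_iff_injective_and_card _).2 ⟨hinj, le_antisymm ?_ ?_⟩
    · exact Nat.card_le_card_of_injective _ hinj
    · rw [hcd]
      exact h2
  let e := LinearEquiv.ofBijective _ hbij
  refine ⟨e.symm.toLinearMap.comp F, fun w y => ?_⟩
  have h3 : e (e.symm (F w)) = F w := e.apply_symm_apply _
  have h4 := DFunLike.congr_fun h3 y
  exact h4

/-- A left ideal on which the form `tau (x y*)` is nondegenerate is generated by a self-adjoint idempotent. -/
theorem exists_idem [Finite B] (I : Submodule B B)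
    (hI : ∀ x ∈ I, (∀ y ∈ I, tau (x * st y) = 0) → x = 0) :
    ∃ f ∈ I, f * f = f ∧ st f = f ∧ ∀ x ∈ I, x * f = x := by
  obtain ⟨ψ, hψ⟩ := exists_lift (IF_t (LinearMap.id : B →ₗ[B] B) LinearMap.id) I I hI le_rfl
    (W := B) ((IF.du (β := fun x y : B => tau (x * st y))
      (IF_t (LinearMap.id : B →ₗ[B] B) LinearMap.id) I))
  have h1 : ∀ y ∈ I, tau (y * st (ψ 1 : B)) = tau y := by
    intro y hy
    have h2 := hψ 1 ⟨y, hy⟩
    change tau ((ψ 1 : B) * st y) = tau (1 * st y) at h2
    rw [← tau_st, st_mul, st_st, h2, one_mul, tau_st]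
  have h2 : ∀ y ∈ I, y * st (ψ 1 : B) = y := by
    intro y hy
    apply eq_of_tau
    intro x
    rw [← mul_assoc]
    exact h1 _ (I.smul_mem x hy)
  have h3 := h2 _ (ψ 1).2
  have h4 : st (ψ 1 : B) = ψ 1 := by
    have h5 := congrArg st h3
    rw [st_mul, st_st, h3] at h5
    exact h5.symm
  rw [h4] at h2 h3
  exact ⟨ψ 1, (ψ 1).2, h3, h4, h2⟩

/-- An invariant form with a nonzero radical on a simple module vanishes. -/
theorem eq_zero_of_simple {β : V → V → ZMod 2} (h : IF B β) (hs : IsSimpleModule B V)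
    {x : V} (hx : x ≠ 0) (h0 : ∀ y, β x y = 0) (x' y : V) : β x' y = 0 := by
  rcases eq_bot_or_eq_top (LinearMap.ker h.dual) with h1 | h1
  · exfalso
    apply hx
    have h2 : x ∈ LinearMap.ker h.dual := by
      rw [LinearMap.mem_ker]
      apply DFunLike.ext
      intro y
      exact h0 y
    rw [h1] at h2
    exact (Submodule.mem_bot B).1 h2
  · have h2 : x' ∈ LinearMap.ker h.dual := by rw [h1]; exact Submodule.mem_top
    rw [LinearMap.mem_ker] at h2
    exact DFunLike.congr_fun h2 y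

/-- A functional on a minimal balanced module whose form is nondegenerate. -/
theorem exists_nd [Finite B] [Finite V] [IsSemisimpleRing B] [TE B]
    (he : ∀ v : V, (TE.e : B) • v = 0) {β : V → V → ZMod 2} (h : IF B β)
    (hnd : ∀ x, (∀ y, β x y + β y x = 0) → x = 0)
    (hmin : ∀ D : Submodule B V, D ≠ ⊥ → D ≠ ⊤ → ∃ x ∈ D, x ≠ 0 ∧ ∀ y ∈ D, β x y + β y x = 0)
    (hne : ∃ v : V, v ≠ 0) :
    ∃ b : V →ₗ[B] B, ∀ x, (∀ y, tau (b x * st (b y)) = 0) → x = 0 := by
  obtain ⟨ω, hω⟩ : ∃ ω : V → V → ZMod 2, ω = fun x y => β x y + β y x := ⟨_, rfl⟩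
  have hωI : IF B ω := by rw [hω]; exact h.om
  have hsym : ∀ x y, ω x y = ω y x := fun x y => by rw [hω]; exact add_comm _ _
  have hnd' : ∀ x, (∀ y, ω x y = 0) → x = 0 := by rw [hω]; exact hnd
  have hmin' : ∀ D : Submodule B V, D ≠ ⊥ → D ≠ ⊤ → ∃ x ∈ D, x ≠ 0 ∧ ∀ y ∈ D, ω x y = 0 := by
    rw [hω]; exact hmin
  obtain ⟨b, x0, y0, hb⟩ : ∃ (b : V →ₗ[B] B) (x y : V), tau (b x * st (b y)) ≠ 0 := by
    by_contra hcon
    push Not at hcon
    obtain ⟨v, hv⟩ := hne
    apply hv
    apply hnd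
    intro y
    rw [symm_of_t hcon h v y]
    exact CharTwo.add_self_eq_zero _
  refine ⟨b, ?_⟩
  by_contra hcon
  push Not at hcon
  obtain ⟨x1, hx1, hx1'⟩ := hcon
  have hR : x1 ∈ LinearMap.ker (IF_t b b).dual := by
    rw [LinearMap.mem_ker]
    apply DFunLike.ext
    intro y
    exact hx1 y
  have hRm : ∀ x ∈ LinearMap.ker (IF_t b b).dual, ∀ y, tau (b x * st (b y)) = 0 := by
    intro x hx y
    rw [LinearMap.mem_ker] at hx
    exact DFunLike.congr_fun hx y
  rcases IsSemisimpleModule.eq_bot_or_exists_simple_le (R := B) (M := V) (LinearMap.ker (IF_t b b).dual) with h1 | ⟨S, hSR, hS⟩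
  · rw [h1] at hR
    exact hx1' ((Submodule.mem_bot B).1 hR)
  have hSt : ∀ x ∈ S, ∀ y, tau (b x * st (b y)) = 0 := fun x hx => hRm x (hSR hx)
  have hSb : S ≠ ⊥ := by
    intro h2
    have := hS.nontrivial
    rw [h2] at this
    exact not_nontrivial _ this
  have hSt' : S ≠ ⊤ := by
    intro h2
    apply hb
    apply hSt
    rw [h2]
    exact Submodule.mem_top
  -- S is isotropic
  have hSiso : ∀ x ∈ S, ∀ y ∈ S, ω x y = 0 := by
    obtain ⟨x, hx, hx0, hx1⟩ := hmin' S hSb hSt'
    intro x' hx' y hy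
    exact eq_zero_of_simple (hωI.comap S.subtype S.subtype) hS (x := ⟨x, hx⟩)
      (fun h2 => hx0 (congrArg Subtype.val h2)) (fun y => hx1 y y.2) ⟨x', hx'⟩ ⟨y, hy⟩
  -- the orthogonal complement of S
  have hperp : ∀ x, x ∈ LinearMap.ker (hωI.du S) ↔ ∀ y ∈ S, ω x y = 0 := by
    intro x
    rw [LinearMap.mem_ker]
    constructor
    · intro h2 y hy
      exact DFunLike.congr_fun h2 ⟨y, hy⟩
    · intro h2
      apply DFunLike.ext
      intro y
      exact h2 y y.2
  obtain ⟨I, hI, hIS⟩ : ∃ I : Submodule B V, IsSimpleModule B I ∧ ¬ I ≤ LinearMap.ker (hωI.du S) := by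
    by_contra hcon
    push Not at hcon
    have h2 : sSup { m : Submodule B V | IsSimpleModule B m } ≤ LinearMap.ker (hωI.du S) :=
      sSup_le fun m hm => hcon m hm
    rw [IsSemisimpleModule.sSup_simples_eq_top B V] at h2
    obtain ⟨s, hs, hs0⟩ := Submodule.exists_mem_ne_zero_of_ne_bot hSb
    apply hs0
    apply hnd'
    intro y
    rw [hsym]
    exact (hperp y).1 (h2 Submodule.mem_top) s hs
  have ha : ∀ x ∈ I, (∀ y ∈ S, ω x y = 0) → x = 0 := by
    rcases eq_bot_or_eq_top ((LinearMap.ker (hωI.du S)).comap I.subtype) with h2 | h2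
    · intro x hx h3
      have h4 : (⟨x, hx⟩ : I) ∈ (LinearMap.ker (hωI.du S)).comap I.subtype := (hperp x).2 h3
      rw [h2, Submodule.mem_bot] at h4
      exact congrArg Subtype.val h4
    · exfalso
      apply hIS
      intro x hx
      have h4 : (⟨x, hx⟩ : I) ∈ (LinearMap.ker (hωI.du S)).comap I.subtype := by
        rw [h2]; exact Submodule.mem_top
      exact h4
  have hbb : ∀ x ∈ S, (∀ y ∈ I, ω x y = 0) → x = 0 := by
    rcases eq_bot_or_eq_top ((LinearMap.ker (hωI.du I)).comap S.subtype) with h2 | h2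
    · intro x hx h3
      have h4 : (⟨x, hx⟩ : S) ∈ (LinearMap.ker (hωI.du I)).comap S.subtype := by
        change hωI.du I x = 0
        apply DFunLike.ext
        intro y
        exact h3 y y.2
      rw [h2, Submodule.mem_bot] at h4
      exact congrArg Subtype.val h4
    · exfalso
      apply hIS
      intro x hx
      rw [hperp]
      intro y hy
      have h4 : (⟨y, hy⟩ : S) ∈ (LinearMap.ker (hωI.du I)).comap S.subtype := by
        rw [h2]; exact Submodule.mem_top
      have h5 : hωI.du I y = 0 := h4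
      have h6 := DFunLike.congr_fun h5 (⟨x, hx⟩ : I)
      rw [hsym]
      exact h6
  have hcard : Nat.card I ≤ Nat.card S := by
    have hcd : Nat.card (Du S) = Nat.card S := card_du (mod_two (B := B))
    rw [← hcd]
    refine Nat.card_le_card_of_injective ((hωI.du S).domRestrict I) ?_
    rw [← LinearMap.ker_eq_bot, LinearMap.ker_eq_bot']
    intro x hx
    apply Subtype.ext
    apply ha _ x.2
    intro y hy
    exact DFunLike.congr_fun hx (⟨y, hy⟩ : S)
  have hdis : ∀ x ∈ I, x ∈ S → x = 0 := fun x hx hxS => ha x hx (fun y hy => hSiso x hxS y hy)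
  have hIb : ∃ x ∈ I, x ≠ 0 := by
    refine Submodule.exists_mem_ne_zero_of_ne_bot ?_
    intro h2
    have := hI.nontrivial
    rw [h2] at this
    exact not_nontrivial _ this
  have hsup : S ⊔ I = ⊤ := by
    by_contra h2
    obtain ⟨x, hx, hx0, hxy⟩ := hmin' (S ⊔ I) (fun h3 => hSb (le_bot_iff.1 (h3 ▸ le_sup_left))) h2
    obtain ⟨s, hs, i, hi, rfl⟩ := Submodule.mem_sup.1 hx
    have h3 : i = 0 := by
      apply ha i hi
      intro y hy
      have h4 := hxy y (Submodule.mem_sup_left hy)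
      rwa [hωI.addl, hSiso s hs y hy, zero_add] at h4
    subst h3
    apply hx0
    rw [add_zero] at hxy ⊢
    exact hbb s hs fun y hy => hxy y (Submodule.mem_sup_right hy)
  -- the graphs
  have hgr : ∀ (ψ : I →ₗ[B] S) (x y : I), ω ((x : V) + ψ x) ((y : V) + ψ y) = 0 := by
    intro ψ
    obtain ⟨g, hg⟩ : ∃ g : I →ₗ[B] V, ∀ x, g x = (x : V) + ψ x :=
      ⟨I.subtype + S.subtype.comp ψ, fun x => rfl⟩
    have hginj : ∀ x, g x = 0 → x = 0 := by
      intro x hx
      apply Subtype.ext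
      apply hdis _ x.2
      rw [hg] at hx
      rw [eq_neg_of_add_eq_zero_left hx]
      exact S.neg_mem (ψ x).2
    have h2 : LinearMap.range g ≠ ⊥ := by
      intro h3
      obtain ⟨x, hx, hx0⟩ := hIb
      apply hx0
      have h4 : g ⟨x, hx⟩ ∈ LinearMap.range g := ⟨_, rfl⟩
      rw [h3, Submodule.mem_bot] at h4
      exact congrArg Subtype.val (hginj _ h4)
    have h3 : LinearMap.range g ≠ ⊤ := by
      intro h3
      obtain ⟨s, hs, hs0⟩ := Submodule.exists_mem_ne_zero_of_ne_bot hSb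
      have h4 : s ∈ LinearMap.range g := by rw [h3]; exact Submodule.mem_top
      obtain ⟨x, hx⟩ := h4
      rw [hg] at hx
      have h5 : (x : V) = 0 := by
        apply hdis _ x.2
        rw [eq_sub_of_add_eq hx]
        exact S.sub_mem hs (ψ x).2
      have h6 : x = 0 := Subtype.ext h5
      rw [h6, map_zero] at hx
      apply hs0
      rw [← hx]
      simp
    obtain ⟨z, ⟨x, rfl⟩, hz0, hzy⟩ := hmin' _ h2 h3
    intro x' y
    rw [← hg, ← hg]
    exact eq_zero_of_simple (hωI.comap g g) hI (x := x) (fun h4 => hz0 (by rw [h4, map_zero]))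
      (fun y => hzy _ ⟨y, rfl⟩) x' y
  have hIiso : ∀ x y : I, ω x y = 0 := by
    intro x y
    have h2 := hgr 0 x y
    simp only [LinearMap.zero_apply, Submodule.coe_zero, add_zero] at h2
    exact h2
  have hψs : ∀ (ψ : I →ₗ[B] S) (x y : I), ω (ψ x) y = ω (ψ y) x := by
    intro ψ x y
    have h2 := hgr ψ x y
    rw [hωI.addl, hωI.addr, hωI.addr, hIiso, hSiso _ (ψ x).2 _ (ψ y).2, zero_add, add_zero,
      hsym x (ψ y)] at h2
    have h3 : ∀ p q : ZMod 2, p + q = 0 → q = p := by decide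
    exact h3 _ _ h2
  have hall : ∀ γ : I → I → ZMod 2, IF B γ → ∀ x y, γ x y = γ y x := by
    intro γ hγ x y
    obtain ⟨ψ, hψ⟩ := exists_lift hωI S I hbb hcard hγ.dual
    have h2 : ∀ x y, γ x y = ω (ψ x) y := fun x y => (hψ x y).symm
    rw [h2, h2]
    exact hψs ψ x y
  have hI0 := t_of_symm (fun v : I => Subtype.ext (he v)) hall (b.comp I.subtype)
  apply hb
  have hx0 : x0 ∈ S ⊔ I := by rw [hsup]; exact Submodule.mem_top
  have hy0 : y0 ∈ S ⊔ I := by rw [hsup]; exact Submodule.mem_top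
  obtain ⟨s, hs, i, hi, rfl⟩ := Submodule.mem_sup.1 hx0
  obtain ⟨s', hs', i', hi', rfl⟩ := Submodule.mem_sup.1 hy0
  rw [(IF_t b b).addl, hSt s hs, zero_add, (IF_t b b).addr, t_symm, hSt s' hs', zero_add]
  exact hI0 ⟨i, hi⟩ ⟨i', hi'⟩

end H49GN
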