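import Pool.Agent.H49.GN.If
import Pool.Agent.H26.GN.F1
import Pool.Agent.H26.GN.F2

/-!
MP_78d38b_GN (helper49): from a balanced socle over the group algebra to `GBal` (end of the necessity).
-/

set_option autoImplicit false
open scoped Classical

namespace H49GN

open H26GN
open H26OD (RG)

section

variable {G X : Type} [Group G] [Finite G] [AddCommGroup X] [DistribMulAction G X]
  [Module (RG G) X]

/-- The converse of `sbal_of`. -/
theorem gbal_of_sbal (hof : ∀ (g : G) (x : X), MonoidAlgebra.of (ZMod 2) G g • x = g • x)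
    (W : Submodule (RG G) X) (h : SBal W) :
    GBal (fun (g : G) (x : X) => g • x) W.toAddSubgroup := by
  obtain ⟨β, hβ, hnd⟩ := h
  obtain ⟨b, hb⟩ : ∃ b : X → X → ZMod 2, ∀ x y : (jk W jmul : Submodule (RG G) X), b x y = β x y := by
    refine ⟨fun x y => if hx : x ∈ (jk W jmul : Submodule (RG G) X) then
      (if hy : y ∈ (jk W jmul : Submodule (RG G) X) then β ⟨x, hx⟩ ⟨y, hy⟩ else 0) else 0, fun x y => ?_⟩
    simp only [dif_pos x.2, dif_pos y.2]
  have hs : ∀ x, x ∈ soc (fun (g : G) (x : X) => g • x) W.toAddSubgroup →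
      ∃ x' : (jk W jmul : Submodule (RG G) X), (x' : X) = x := fun x hx => ⟨⟨x, (soc_eq hof W x).1 hx⟩, rfl⟩
  refine ⟨b, ?_, ?_, ?_, ?_⟩
  · intro x hx x' hx' y hy
    obtain ⟨x, rfl⟩ := hs x hx
    obtain ⟨x', rfl⟩ := hs x' hx'
    obtain ⟨y, rfl⟩ := hs y hy
    rw [← Submodule.coe_add, hb, hb, hb, hβ.al]
  · intro x hx y hy y' hy'
    obtain ⟨x, rfl⟩ := hs x hx
    obtain ⟨y', rfl⟩ := hs y' hy'
    obtain ⟨y, rfl⟩ := hs y hy
    rw [← Submodule.coe_add, hb, hb, hb, hβ.ar]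
  · intro g x hx y hy
    obtain ⟨x, rfl⟩ := hs x hx
    obtain ⟨y, rfl⟩ := hs y hy
    change b (g • (x : X)) (g • (y : X)) = _
    rw [← hof, ← hof, ← Submodule.coe_smul, ← Submodule.coe_smul, hb, hb, hβ.inv, ← mul_smul]
    have h1 : st (MonoidAlgebra.of (ZMod 2) G g) * MonoidAlgebra.of (ZMod 2) G g = (1 : RG G) := by
      change H26OD.st (MonoidAlgebra.of (ZMod 2) G g) * _ = _
      rw [H26OD.st_of, ← map_mul, inv_mul_cancel, map_one]
    rw [h1, one_smul]
  · intro x hx h1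
    obtain ⟨x, rfl⟩ := hs x hx
    have h2 : x = 0 := by
      apply hnd
      intro y
      rw [← hb, ← hb]
      exact h1 _ ((soc_eq hof W _).2 y.2)
    rw [h2]
    rfl

end

/-- Transport by an injective equivariant map. -/
theorem gbal_push {G V X : Type} [AddCommGroup V] [AddCommGroup X] {act : G → V → V} {act' : G → X → X}
    (i : X →+ V) (R : V → X) (hR : ∀ x, R (i x) = x) (he : ∀ g x, i (act' g x) = act g (i x))
    {W' : AddSubgroup X} (h : GBal act' W') : GBal act (W'.map i) := by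
  have hi : Function.Injective i := Function.LeftInverse.injective hR
  obtain ⟨β, h1, h2, h3, h4⟩ := h
  have hs : ∀ x, x ∈ soc act (W'.map i) → ∃ x' ∈ soc act' W', i x' = x := by
    intro x hx
    rw [soc_map act act' i hi he] at hx
    exact hx
  have hs' : ∀ x ∈ soc act' W', i x ∈ soc act (W'.map i) := by
    intro x hx
    rw [soc_map act act' i hi he]
    exact ⟨x, hx, rfl⟩
  refine ⟨fun v w => β (R v) (R w), ?_, ?_, ?_, ?_⟩
  · intro x hx x' hx' y hy
    obtain ⟨x, hx0, rfl⟩ := hs x hx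
    obtain ⟨x', hx0', rfl⟩ := hs x' hx'
    obtain ⟨y, hy0, rfl⟩ := hs y hy
    change β (R (i x + i x')) (R (i y)) = β (R (i x)) (R (i y)) + β (R (i x')) (R (i y))
    rw [← map_add, hR, hR, hR, hR]
    exact h1 x hx0 x' hx0' y hy0
  · intro x hx y hy y' hy'
    obtain ⟨x, hx0, rfl⟩ := hs x hx
    obtain ⟨y', hy0', rfl⟩ := hs y' hy'
    obtain ⟨y, hy0, rfl⟩ := hs y hy
    change β (R (i x)) (R (i y + i y')) = β (R (i x)) (R (i y)) + β (R (i x)) (R (i y'))
    rw [← map_add, hR, hR, hR, hR]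
    exact h2 x hx0 y hy0 y' hy0'
  · intro g x hx y hy
    obtain ⟨x, hx0, rfl⟩ := hs x hx
    obtain ⟨y, hy0, rfl⟩ := hs y hy
    change β (R (act g (i x))) (R (act g (i y))) = β (R (i x)) (R (i y))
    rw [← he, ← he, hR, hR, hR, hR]
    exact h3 g x hx0 y hy0
  · intro x hx h5
    obtain ⟨x, hx0, rfl⟩ := hs x hx
    rw [h4 x hx0, map_zero]
    intro y hy
    have h6 := h5 (i y) (hs' y hy)
    change β (R (i x)) (R (i y)) + β (R (i y)) (R (i x)) = 0 at h6
    rwa [hR, hR] at h6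

/-- The end: from the matrix to `GBal`. -/
theorem gbal_end {G V : Type} [Group G] [Finite G] [AddCommGroup V] {act : G → V → V} {W : AddSubgroup V}
    (h : Nec act W) (M : Fin h.m ⊕ Fin h.m → Fin h.m ⊕ Fin h.m → RG G)
    (hM : ∀ y ∈ h.Y, (y ∈ W ↔ h.R y ∈ KM M)) (hs : SBal (KM M)) : GBal act W := by
  obtain ⟨j, hj⟩ : ∃ j : (Fin h.m ⊕ Fin h.m → RG G) → V, ∀ a, j a ∈ h.Y ∧ h.R (j a) = a := by
    choose j hj using h.Rsurj
    exact ⟨j, fun a => ⟨(hj a).1, funext (hj a).2⟩⟩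
  have hRadd : ∀ x ∈ h.Y, ∀ y ∈ h.Y, h.R (x + y) = h.R x + h.R y := fun x hx y hy =>
    funext fun i => h.Radd x hx y hy i
  have hinj : ∀ x ∈ h.Y, ∀ y ∈ h.Y, h.R x = h.R y → x = y := by
    intro x hx y hy hxy
    rw [← sub_eq_zero]
    have h1 := hRadd (x - y) (h.Y.sub_mem hx hy) y hy
    rw [sub_add_cancel, hxy] at h1
    have h2 : h.R (x - y) = 0 := left_eq_add.1 (h1.trans (add_comm _ _))
    exact h.Rinj _ (h.Y.sub_mem hx hy) (fun i => congrFun h2 i)
  have hRact : ∀ (g : G), ∀ y ∈ h.Y, h.R (act g y) = (MonoidAlgebra.of (ZMod 2) G g : RG G) • h.R y :=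
    fun g y hy => funext fun i => h.Ract g y hy i
  let i : (Fin h.m ⊕ Fin h.m → RG G) →+ V := AddMonoidHom.mk' j (fun a b => by
    apply hinj _ (hj _).1 _ (h.Y.add_mem (hj _).1 (hj _).1)
    rw [(hj _).2, hRadd _ (hj _).1 _ (hj _).1, (hj _).2, (hj _).2])
  have hi : ∀ a, i a = j a := fun _ => rfl
  let iG : DistribMulAction G (Fin h.m ⊕ Fin h.m → RG G) :=
    DistribMulAction.compHom _ (MonoidAlgebra.of (ZMod 2) G)
  have hof : ∀ (g : G) (x : Fin h.m ⊕ Fin h.m → RG G),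
      (MonoidAlgebra.of (ZMod 2) G g : RG G) • x = g • x := fun g x => rfl
  have hW : W = (KM M).toAddSubgroup.map i := by
    ext w
    constructor
    · intro hw
      have hwY : w ∈ h.Y := ((h.rad w).1 hw).1
      refine ⟨h.R w, (hM w hwY).1 hw, ?_⟩
      apply hinj _ (hj _).1 _ hwY
      exact (hj _).2
    · rintro ⟨a, ha, rfl⟩
      rw [hi, hM _ (hj a).1, (hj a).2]
      exact ha
  rw [hW]
  refine gbal_push (act' := fun (g : G) x => g • x) i h.R (fun x => (hj x).2) (fun g x => ?_)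
    (gbal_of_sbal hof _ hs)
  rw [hi, hi, ← hof]
  apply hinj _ (hj _).1 _ (h.stb _ _ (hj _).1)
  rw [(hj _).2, hRact _ _ (hj _).1, (hj _).2]

end H49GN
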