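import Pool.Agent.H49.GN.Ab

/-!
MP_78d38b_GN (helper49): balanced modules over a finite semisimple ring with involution, cancellation
(parts (d) - (h) of /team-store/H26_78d38b_GNnec.md).
-/

set_option autoImplicit false
open scoped Classical

namespace H49GN

open H26GN

variable {B : Type} [Ring B] [TR B]

section Basic

variable {V W : Type} [AddCommGroup V] [Module B V] [AddCommGroup W] [Module B W]

theorem IF_of {β : V → V → ZMod 2} (h : Frm B β) : IF B β := ⟨h.al, h.ar, h.inv⟩

theorem bal_iff : Bal B V ↔ ∃ β : V → V → ZMod 2, IF B β ∧ ∀ x, (∀ y, β x y + β y x = 0) → x = 0 :=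
  ⟨fun ⟨β, h, h'⟩ => ⟨β, IF_of h, h'⟩, fun ⟨β, h, h'⟩ => ⟨β, ⟨h.addl, h.addr, h.inv⟩, h'⟩⟩

theorem bal_congr (e : V ≃ₗ[B] W) (h : Bal B V) : Bal B W := by
  obtain ⟨β, hβ, hnd⟩ := bal_iff.1 h
  refine bal_iff.2 ⟨fun x y => β (e.symm x) (e.symm y), hβ.comap e.symm.toLinearMap e.symm.toLinearMap,
    fun x hx => ?_⟩
  have h1 : e.symm x = 0 := by
    apply hnd
    intro y
    have h2 : β (e.symm x) (e.symm (e y)) + β (e.symm (e y)) (e.symm x) = 0 := hx (e y)
    rwa [e.symm_apply_apply] at h2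
  exact (LinearEquiv.map_eq_zero_iff _).1 h1

theorem bal_prod (h : Bal B V) (h' : Bal B W) : Bal B (V × W) := by
  obtain ⟨β, hβ, hnd⟩ := bal_iff.1 h
  obtain ⟨γ, hγ, hnd'⟩ := bal_iff.1 h'
  refine bal_iff.2 ⟨fun x y => β x.1 y.1 + γ x.2 y.2, ⟨fun x x' y => ?_, fun x y y' => ?_,
    fun a x y => ?_⟩, fun x hx => ?_⟩
  · change β (x.1 + x'.1) y.1 + γ (x.2 + x'.2) y.2 = _
    rw [hβ.addl, hγ.addl]
    ring
  · change β x.1 (y.1 + y'.1) + γ x.2 (y.2 + y'.2) = _
    rw [hβ.addr, hγ.addr]
    ring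
  · change β (a • x.1) y.1 + γ (a • x.2) y.2 = β x.1 (st a • y.1) + γ x.2 (st a • y.2)
    rw [hβ.inv, hγ.inv]
  · apply Prod.ext
    · apply hnd
      intro y
      have h1 := hx (y, 0)
      simp only [hγ.zeror, hγ.zerol, add_zero] at h1
      exact h1
    · apply hnd'
      intro y
      have h1 := hx (0, y)
      simp only [hβ.zeror, hβ.zerol, zero_add] at h1
      exact h1

/-- The hyperbolic module. -/
theorem bal_hyp [Finite B] : Bal B (V × Du V) := by
  refine bal_iff.2 ⟨fun x y => x.2 y.1, ⟨fun x x' y => rfl, fun x y y' => map_add x.2 _ _,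
    fun a x y => rfl⟩, fun x hx => ?_⟩
  apply Prod.ext
  · by_contra h
    obtain ⟨l, hl⟩ := H26GN.exists_ne (B := B) h
    apply hl
    have h1 : x.2 (0 : V) + (l : V →+ ZMod 2) x.1 = 0 := hx (0, (l : Du V))
    rwa [map_zero, zero_add] at h1
  · apply DFunLike.ext
    intro y
    have h1 : x.2 y + (0 : Du V) x.1 = 0 := hx (y, 0)
    have h2 : (0 : Du V) x.1 = 0 := rfl
    rwa [h2, add_zero] at h1

/-- A balanced module is self-dual. -/
theorem du_equiv [Finite V] (h : Bal B V) : Nonempty (V ≃ₗ[B] Du V) := by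
  obtain ⟨β, hβ, hnd⟩ := bal_iff.1 h
  have hinj : Function.Injective hβ.om.dual := by
    rw [← LinearMap.ker_eq_bot, LinearMap.ker_eq_bot']
    intro x hx
    apply hnd
    intro y
    exact DFunLike.congr_fun hx y
  exact ⟨LinearEquiv.ofBijective _ ((Nat.bijective_iff_injective_and_card _).2
    ⟨hinj, (card_du (mod_two (B := B))).symm⟩)⟩

/-- A submodule on which the form is nondegenerate has a balanced complement. -/
theorem split_nd [Finite V] {β : V → V → ZMod 2} (h : IF B β)
    (hnd : ∀ x, (∀ y, β x y + β y x = 0) → x = 0) (C : Submodule B V)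
    (hC : ∀ x ∈ C, (∀ y ∈ C, β x y + β y x = 0) → x = 0) :
    ∃ D : Submodule B V, IsCompl C D ∧ Bal B D := by
  have hω := h.om
  obtain ⟨ψ, hψ⟩ := exists_lift hω C C hC le_rfl (hω.du C)
  have hker : ∀ x, x ∈ LinearMap.ker (hω.du C) ↔ ∀ y ∈ C, β x y + β y x = 0 := by
    intro x
    rw [LinearMap.mem_ker]
    constructor
    · intro h2 y hy
      exact DFunLike.congr_fun h2 ⟨y, hy⟩
    · intro h2
      apply DFunLike.ext
      intro y
      exact h2 y y.2
  have hsub : ∀ w, w - (ψ w : V) ∈ LinearMap.ker (hω.du C) := by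
    intro w
    rw [LinearMap.mem_ker, map_sub, sub_eq_zero]
    apply DFunLike.ext
    intro y
    exact (hψ w y).symm
  refine ⟨LinearMap.ker (hω.du C), ⟨?_, ?_⟩, bal_iff.2 ⟨fun x y => β x y,
    h.comap (LinearMap.ker (hω.du C)).subtype (LinearMap.ker (hω.du C)).subtype, fun x hx => ?_⟩⟩
  · rw [Submodule.disjoint_def]
    intro x hx hx'
    exact hC x hx ((hker x).1 hx')
  · rw [codisjoint_iff, eq_top_iff]
    intro x _
    have : x = (ψ x : V) + (x - (ψ x : V)) := by abel
    rw [this]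
    exact Submodule.add_mem_sup (ψ x).2 (hsub x)
  · apply Subtype.ext
    apply hnd
    intro y
    have h1 : y = (ψ y : V) + (y - (ψ y : V)) := by abel
    have h2 := (hker x).1 x.2 _ (ψ y).2
    have h3 := hx ⟨_, hsub y⟩
    change β x (y - (ψ y : V)) + β (y - (ψ y : V)) x = 0 at h3
    rw [h1, h.addl, h.addr]
    linear_combination h2 + h3

end Basic

section Simple

/-- The dual of a simple module is simple. -/
theorem simple_du (S : Type) [AddCommGroup S] [Module B S] [Finite S] [hS : IsSimpleModule B S] :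
    IsSimpleModule B (Du S) := by
  have hcd : Nat.card (Du S) = Nat.card S := card_du (mod_two (B := B))
  have hnt : Nontrivial S := hS.nontrivial
  have hnt' : Nontrivial (Du S) := by
    rw [← Finite.one_lt_card_iff_nontrivial, hcd, Finite.one_lt_card_iff_nontrivial]
    exact hnt
  refine { exists_pair_ne := ⟨⊥, ⊤, bot_ne_top⟩, eq_bot_or_eq_top := fun U => ?_ }
  by_cases hU : U = ⊥
  · exact Or.inl hU
  right
  let ev : S →ₗ[B] Du U :=
    { toFun := fun s => (⟨⟨fun φ : U => (φ : Du S) s, rfl⟩, fun φ ψ => rfl⟩ : U →+ ZMod 2)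
      map_add' := fun s s' => by
        apply DFunLike.ext
        intro φ
        exact map_add (φ : Du S) s s'
      map_smul' := fun a s => by
        apply DFunLike.ext
        intro φ
        change (φ : Du S) (a • s) = (φ : Du S) (st (st a) • s)
        rw [st_st] }
  have hev : ∀ (s : S) (φ : U), ev s φ = (φ : Du S) s := fun s φ => rfl
  have hk : LinearMap.ker ev = ⊥ := by
    rcases eq_bot_or_eq_top (LinearMap.ker ev) with h | h
    · exact h
    · exfalso
      obtain ⟨φ, hφ, hφ0⟩ := Submodule.exists_mem_ne_zero_of_ne_bot hU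
      apply hφ0
      apply DFunLike.ext
      intro s
      have h1 : s ∈ LinearMap.ker ev := by rw [h]; exact Submodule.mem_top
      rw [LinearMap.mem_ker] at h1
      exact DFunLike.congr_fun h1 ⟨φ, hφ⟩
  have h1 : Nat.card S ≤ Nat.card (Du U) :=
    Nat.card_le_card_of_injective ev (LinearMap.ker_eq_bot.1 hk)
  rw [card_du (V := U) (mod_two (B := B)), ← hcd] at h1
  apply SetLike.coe_injective
  exact Set.eq_of_subset_of_ncard_le (Set.subset_univ _) (by
    rw [← Nat.card_coe_set_eq, ← Nat.card_coe_set_eq]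
    have h2 : Nat.card ((⊤ : Submodule B (Du S)) : Set (Du S)) = Nat.card (Du S) := Nat.card_congr (Equiv.Set.univ _)
    rw [h2]
    exact h1) (Set.toFinite _)

variable [IsSemisimpleRing B]

omit [TR B] in
/-- Cancellation of a simple module. -/
theorem cancel_simple {M₁ M₂ S : Type} [AddCommGroup M₁] [Module B M₁] [AddCommGroup M₂] [Module B M₂]
    [AddCommGroup S] [Module B S] [Finite M₁] [Finite M₂] [Finite S] [IsSimpleModule B S]
    (e : (M₁ × S) ≃ₗ[B] (M₂ × S)) : Nonempty (M₁ ≃ₗ[B] M₂) := by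
  have hcard : Nat.card M₁ = Nat.card M₂ := by
    have h1 := Nat.card_congr e.toEquiv
    rw [Nat.card_prod, Nat.card_prod] at h1
    exact Nat.eq_of_mul_eq_mul_right Nat.card_pos h1
  let f : M₁ →ₗ[B] S := (LinearMap.snd B M₂ S).comp (e.toLinearMap.comp (LinearMap.inl B M₁ S))
  let g : M₂ →ₗ[B] S := (LinearMap.snd B M₁ S).comp (e.symm.toLinearMap.comp (LinearMap.inl B M₂ S))
  have hf : ∀ x, f x = (e (x, 0)).2 := fun _ => rfl
  have hg : ∀ x, g x = (e.symm (x, 0)).2 := fun _ => rfl
  -- the kernels are isomorphic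
  have hK : Nonempty (LinearMap.ker f ≃ₗ[B] LinearMap.ker g) := by
    have h1 : ∀ x : LinearMap.ker f, e (x, 0) = ((e (x, 0)).1, 0) := fun x =>
      Prod.ext rfl ((hf x).symm.trans x.2)
    have h2 : ∀ x : LinearMap.ker g, e.symm (x, 0) = ((e.symm (x, 0)).1, 0) := fun x =>
      Prod.ext rfl ((hg x).symm.trans x.2)
    refine ⟨LinearEquiv.ofLinearMap
      (LinearMap.codRestrict _ ((LinearMap.fst B M₂ S).comp (e.toLinearMap.comp
        ((LinearMap.inl B M₁ S).comp (LinearMap.ker f).subtype))) (fun x => ?_))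
      (LinearMap.codRestrict _ ((LinearMap.fst B M₁ S).comp (e.symm.toLinearMap.comp
        ((LinearMap.inl B M₂ S).comp (LinearMap.ker g).subtype))) (fun x => ?_)) ?_ ?_⟩
    · rw [LinearMap.mem_ker, hg]
      change (e.symm ((e (x, 0)).1, 0)).2 = 0
      rw [← h1, e.symm_apply_apply]
    · rw [LinearMap.mem_ker, hf]
      change (e ((e.symm (x, 0)).1, 0)).2 = 0
      rw [← h2, e.apply_symm_apply]
    · apply LinearMap.ext
      intro x
      apply Subtype.ext
      change (e ((e.symm (x, 0)).1, 0)).1 = _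
      rw [← h2, e.apply_symm_apply]
      rfl
    · apply LinearMap.ext
      intro x
      apply Subtype.ext
      change (e.symm ((e (x, 0)).1, 0)).1 = _
      rw [← h1, e.symm_apply_apply]
      rfl
  obtain ⟨k⟩ := hK
  -- a surjection onto `S` splits
  have hsplit : ∀ {M : Type} [AddCommGroup M] [Module B M] [Finite M] (f : M →ₗ[B] S), f ≠ 0 →
      Nonempty (M ≃ₗ[B] LinearMap.ker f × S) := by
    intro M _ _ _ f hf
    obtain ⟨D, hD⟩ := exists_isCompl (LinearMap.ker f)
    have hr : LinearMap.range f = ⊤ := by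
      rcases eq_bot_or_eq_top (LinearMap.range f) with h | h
      · exact absurd (LinearMap.range_eq_bot.1 h) hf
      · exact h
    have e1 : (LinearMap.ker f × D) ≃ₗ[B] M := Submodule.prodEquivOfIsCompl _ _ hD
    have e2 : (M ⧸ LinearMap.ker f) ≃ₗ[B] D := Submodule.quotientEquivOfIsCompl _ _ hD
    have e3 : (M ⧸ LinearMap.ker f) ≃ₗ[B] S := f.quotKerEquivOfSurjective (LinearMap.range_eq_top.1 hr)
    exact ⟨e1.symm.trans ((LinearEquiv.refl B _).prodCongr (e2.symm.trans e3))⟩
  by_cases hf0 : f = 0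
  · -- then `g = 0` and both kernels are everything
    have hk1 : LinearMap.ker f = ⊤ := LinearMap.ker_eq_top.2 hf0
    have hk2 : LinearMap.ker g = ⊤ := by
      have h1 : Nat.card (LinearMap.ker g) = Nat.card M₂ := by
        rw [← Nat.card_congr k.toEquiv, hk1, ← hcard]
        exact Nat.card_congr (Equiv.Set.univ _)
      apply SetLike.coe_injective
      refine Set.eq_of_subset_of_ncard_le (Set.subset_univ _) ?_ (Set.toFinite _)
      rw [← Nat.card_coe_set_eq, ← Nat.card_coe_set_eq]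
      have h2 : Nat.card ((⊤ : Submodule B M₂) : Set M₂) = Nat.card M₂ := Nat.card_congr (Equiv.Set.univ _)
      rw [h2]
      exact h1.ge
    exact ⟨(Submodule.topEquiv.symm.trans (LinearEquiv.ofEq _ _ hk1.symm)).trans
      (k.trans ((LinearEquiv.ofEq _ _ hk2).trans Submodule.topEquiv))⟩
  · have hg0 : g ≠ 0 := by
      intro hg0
      apply hf0
      rw [← LinearMap.ker_eq_top]
      have hk2 : LinearMap.ker g = ⊤ := LinearMap.ker_eq_top.2 hg0
      have h1 : Nat.card (LinearMap.ker f) = Nat.card M₁ := by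
        rw [Nat.card_congr k.toEquiv, hk2, hcard]
        exact Nat.card_congr (Equiv.Set.univ _)
      apply SetLike.coe_injective
      refine Set.eq_of_subset_of_ncard_le (Set.subset_univ _) ?_ (Set.toFinite _)
      rw [← Nat.card_coe_set_eq, ← Nat.card_coe_set_eq]
      have h2 : Nat.card ((⊤ : Submodule B M₁) : Set M₁) = Nat.card M₁ := Nat.card_congr (Equiv.Set.univ _)
      rw [h2]
      exact h1.ge
    obtain ⟨e1⟩ := hsplit f hf0
    obtain ⟨e2⟩ := hsplit g hg0
    exact ⟨e1.trans ((k.prodCongr (LinearEquiv.refl B S)).trans e2.symm)⟩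

end Simple

end H49GN
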